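import Pool.Agent.R866.EqDeg.Final

/-!
# MP_b875bc_co: equal-degree vertices joined by a path of length three (full positive answer)
-/

namespace Pool.Agent.Results.MP_b875bc_co.PathLengthThree

open Pool.Agent.R866.EqDeg

/-- **Full answer to MP_b875bc_co, for every `n ≥ 2`.**  Every graph with `2 n + 1` vertices and at
least `n ^ 2 + n + 1` edges contains two distinct vertices `x₁`, `x₂` of equal degree which are
joined by a path `x₁ y₁ y₂ x₂` of length three (four pairwise distinct vertices). -/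
theorem result (n : ℕ) (hn : 2 ≤ n) {V : Type*} [Fintype V] [DecidableEq V]
    (G : SimpleGraph V) [DecidableRel G.Adj] (hV : Fintype.card V = 2 * n + 1)
    (hE : n ^ 2 + n + 1 ≤ G.edgeFinset.card) :
    ∃ x₁ x₂ y₁ y₂ : V, x₁ ≠ x₂ ∧ x₁ ≠ y₁ ∧ x₁ ≠ y₂ ∧ y₁ ≠ y₂ ∧ y₁ ≠ x₂ ∧ y₂ ≠ x₂ ∧
      G.degree x₁ = G.degree x₂ ∧ G.Adj x₁ y₁ ∧ G.Adj y₁ y₂ ∧ G.Adj y₂ x₂ := by
  by_contra hcon
  push Not at hcon
  have hsum : ∑ v, 2 * dg G v = 4 * (G.edgeFinset.card : ℤ) := by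
    have h := G.sum_degrees_eq_twice_card_edges
    have h2 : (∑ v, (G.degree v : ℤ)) = 2 * (G.edgeFinset.card : ℤ) := by exact_mod_cast h
    rw [← Finset.mul_sum]
    change 2 * ∑ v, (G.degree v : ℤ) = _
    rw [h2]; ring
  refine not_noPath (G := G) (by omega) ⟨n, by omega⟩ ?_ ?_
  · rw [hsum, hV]
    have : ((n : ℤ) ^ 2 + n + 1) ≤ (G.edgeFinset.card : ℤ) := by exact_mod_cast hE
    push_cast
    nlinarith
  · intro x x' y z hne hd hyx' hzx hxy hyz hzx'
    exact hcon x x' y z hne hxy.ne (Ne.symm hzx) hyz.ne hyx' hzx'.ne hd hxy hyz hzx'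

end Pool.Agent.Results.MP_b875bc_co.PathLengthThree
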